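import Pool.Agent.Q234.KG.Stm

/-!
# Project KG (helper234), job AR: the choice of the parameters (adapted from Pool/Agent/Q235/KT/AR.lean)
-/

set_option autoImplicit false

open Pool.Agent.Q234.KG

namespace Pool.Agent.Q193.KG.AR


theorem main : ArithS := by
  intro A₀ κ hA₀ hκ
  obtain ⟨B, hB⟩ : ∃ B : ℝ, B = max A₀ 2 := ⟨_, rfl⟩
  have hB2 : 2 ≤ B := by rw [hB]; exact le_max_right _ _
  have hBA : A₀ ≤ B := by rw [hB]; exact le_max_left _ _
  have hB0 : 0 < B := by linarith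
  have hl : 0 < Real.log B := Real.log_pos (by linarith)
  obtain ⟨q, hq⟩ : ∃ q : ℝ, q = Real.exp (2 * Real.log B / κ) := ⟨_, rfl⟩
  have hq0 : 0 < q := by rw [hq]; exact Real.exp_pos _
  have hlq : Real.log q = 2 * Real.log B / κ := by rw [hq, Real.log_exp]
  have hlq0 : 0 < Real.log q := by rw [hlq]; positivity
  have hq1 : 1 ≤ q := by
    rw [hq]
    exact Real.one_le_exp (by positivity)
  refine ⟨q, 2 * B * (4 : ℝ) ^ κ + 1, hq1, by positivity, fun L ε hL hε hε1 => ?_⟩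
  have hL1 : (1 : ℝ) ≤ L := by exact_mod_cast hL
  have hL2 : (1 : ℝ) ≤ (L : ℝ) ^ 2 := by nlinarith
  obtain ⟨A, hA⟩ : ∃ A : ℝ, A = 16 * (L : ℝ) ^ 2 / ε := ⟨_, rfl⟩
  have hA1 : 1 ≤ A := by
    rw [hA, le_div_iff₀ hε]
    linarith
  have hA0 : 0 < A := by linarith
  obtain ⟨y, hy⟩ : ∃ y : ℝ, y = Real.log A / Real.log q := ⟨_, rfl⟩
  have hy0 : 0 ≤ y := by rw [hy]; exact div_nonneg (Real.log_nonneg hA1) hlq0.le
  obtain ⟨s, hs⟩ : ∃ s : ℕ, s = ⌈y⌉₊ := ⟨_, rfl⟩
  have hs1 : y ≤ s := by rw [hs]; exact Nat.le_ceil y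
  have hs2 : (s : ℝ) < y + 1 := by rw [hs]; exact Nat.ceil_lt_add_one hy0
  have hqs : A ≤ q ^ s := by
    rw [← Real.rpow_natCast, ← Real.log_le_log_iff hA0 (Real.rpow_pos_of_pos hq0 _),
      Real.log_rpow hq0]
    have h1 := mul_le_mul_of_nonneg_right hs1 hlq0.le
    rwa [hy, div_mul_cancel₀ _ hlq0.ne'] at h1
  have hqs0 : 0 < q ^ s := by positivity
  refine ⟨s, ?_, ?_⟩
  · have h1 : 2 / q ^ s ≤ ε / (8 * (L : ℝ) ^ 2) := by
      rw [div_le_div_iff₀ hqs0 (by positivity)]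
      have h2 : ε * A = 16 * (L : ℝ) ^ 2 := by rw [hA]; field_simp
      nlinarith [mul_le_mul_of_nonneg_left hqs hε.le]
    have h2 : 1 + 2 / q ^ s ≤ Real.exp (2 / q ^ s) := by
      have := Real.add_one_le_exp (2 / q ^ s)
      linarith
    have h3 : (1 + 2 / q ^ s) ^ (L ^ 2) ≤ Real.exp (ε / 8) := by
      calc (1 + 2 / q ^ s) ^ (L ^ 2) ≤ Real.exp (2 / q ^ s) ^ (L ^ 2) :=
            pow_le_pow_left₀ (by positivity) h2 _
        _ = Real.exp ((L : ℝ) ^ 2 * (2 / q ^ s)) := by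
            rw [← Real.exp_nat_mul]
            push_cast
            ring_nf
        _ ≤ Real.exp (ε / 8) := by
            apply Real.exp_le_exp.2
            have h4 := mul_le_mul_of_nonneg_left h1 (by positivity : 0 ≤ (L : ℝ) ^ 2)
            have h5 : (L : ℝ) ^ 2 * (ε / (8 * (L : ℝ) ^ 2)) = ε / 8 := by field_simp
            linarith
    have h6 : Real.exp (ε / 8) - 1 ≤ ε / 4 := by
      have h7 : |ε / 8| ≤ 1 := by rw [abs_of_pos (by positivity)]; linarith
      have h8 := Real.abs_exp_sub_one_le h7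
      rw [abs_of_pos (show (0 : ℝ) < ε / 8 by positivity)] at h8
      have h9 := le_abs_self (Real.exp (ε / 8) - 1)
      linarith
    linarith
  · have hLe : 1 ≤ (L : ℝ) / ε := by
      rw [le_div_iff₀ hε]
      linarith
    have hLe0 : 0 < (L : ℝ) / ε := by linarith
    have h1 : B ^ s ≤ B * (4 ^ κ * ((L : ℝ) / ε) ^ κ) := by
      have h2 : B ^ s ≤ B ^ (y + 1) := by
        rw [← Real.rpow_natCast]
        exact Real.rpow_le_rpow_of_exponent_le (by linarith) hs2.le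
      have h3 : B ^ (y + 1) = B * B ^ y := by
        rw [Real.rpow_add hB0, Real.rpow_one, mul_comm]
      have h4 : B ^ y ≤ 4 ^ κ * ((L : ℝ) / ε) ^ κ := by
        rw [← Real.mul_rpow (by norm_num) hLe0.le, ← Real.log_le_log_iff (by positivity)
          (by positivity), Real.log_rpow hB0, Real.log_rpow (by positivity)]
        have h5 : y * Real.log B = κ / 2 * Real.log A := by
          rw [hy, hlq]
          field_simp
        rw [h5]
        have h6 : Real.log A ≤ 2 * Real.log (4 * ((L : ℝ) / ε)) := by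
          have h7 : 2 * Real.log (4 * ((L : ℝ) / ε)) = Real.log ((4 * ((L : ℝ) / ε)) ^ 2) := by
            rw [Real.log_pow]
            norm_num
          rw [h7]
          apply Real.log_le_log hA0
          rw [hA, div_le_iff₀ hε]
          have h8 : (4 * ((L : ℝ) / ε)) ^ 2 * ε = 16 * (L : ℝ) ^ 2 / ε := by
            field_simp
            ring
          rw [h8, le_div_iff₀ hε]
          nlinarith
        nlinarith
      calc B ^ s ≤ B ^ (y + 1) := h2
        _ = B * B ^ y := h3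
        _ ≤ B * (4 ^ κ * ((L : ℝ) / ε) ^ κ) := mul_le_mul_of_nonneg_left h4 hB0.le
    have h2 : (1 : ℝ) ≤ ((L : ℝ) / ε) ^ κ := Real.one_le_rpow hLe hκ.le
    have h3 : A₀ ^ s ≤ B ^ s := pow_le_pow_left₀ (by linarith) hBA s
    calc 2 * A₀ ^ s + 1 ≤ 2 * (B * (4 ^ κ * ((L : ℝ) / ε) ^ κ)) + ((L : ℝ) / ε) ^ κ := by linarith
      _ = (2 * B * (4 : ℝ) ^ κ + 1) * ((L : ℝ) / ε) ^ κ := by ring

end Pool.Agent.Q193.KG.AR
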