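import Pool.Agent.Q234.KG.Stm3

/-!
# Project KG (helper234), job DC: decoration by phases
-/

set_option autoImplicit false

open scoped BigOperators
open Finset Pool.Agent.TH235.PP
open Pool.Agent.Q234.KG

namespace Pool.Agent.Q193.KG.DC

theorem sh_inj {n L : ℕ} (hn : n ≤ L) (u : Site L) : Function.Injective (sh u : Fin n × Fin n → Site L) := by
  have key : ∀ a b : Fin n, ((a : ℕ) : ZMod L) = ((b : ℕ) : ZMod L) → a = b := by
    intro a b h
    rw [ZMod.natCast_eq_natCast_iff'] at h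
    rw [Nat.mod_eq_of_lt (lt_of_lt_of_le a.2 hn), Nat.mod_eq_of_lt (lt_of_lt_of_le b.2 hn)] at h
    exact Fin.ext h
  intro x y h
  unfold sh at h
  have h1 := congrArg Prod.fst h
  have h2 := congrArg Prod.snd h
  exact Prod.ext (key _ _ (add_left_cancel h1)) (key _ _ (add_left_cancel h2))

/-- the site `v + (m, m)` -/
def up {L : ℕ} (m : ℕ) (v : Site L) : Site L := (v.1 + (m : ZMod L), v.2 + (m : ZMod L))

/-- the point of the big box -/
def em {n : ℕ} (m : ℕ) (x : Fin n × Fin n) : Fin (n + 2 * m) × Fin (n + 2 * m) :=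
  (⟨m + (x.1 : ℕ), by have := x.1.2; omega⟩, ⟨m + (x.2 : ℕ), by have := x.2.2; omega⟩)

theorem sh_em {n m L : ℕ} (v : Site L) (x : Fin n × Fin n) : sh (up m v) x = sh v (em m x) := by
  unfold sh up em
  refine Prod.ext ?_ ?_
  · simp only
    push_cast
    ring
  · simp only
    push_cast
    ring

/-- the inner box -/
def Inn {n m : ℕ} (z : Fin (n + 2 * m) × Fin (n + 2 * m)) : Prop :=
  (m ≤ (z.1 : ℕ) ∧ (z.1 : ℕ) < m + n) ∧ m ≤ (z.2 : ℕ) ∧ (z.2 : ℕ) < m + n

theorem inn_em {n m : ℕ} (z : Fin (n + 2 * m) × Fin (n + 2 * m)) (hz : Inn z) :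
    ∃ x : Fin n × Fin n, em m x = z := by
  obtain ⟨⟨h1, h2⟩, h3, h4⟩ := hz
  refine ⟨(⟨(z.1 : ℕ) - m, by omega⟩, ⟨(z.2 : ℕ) - m, by omega⟩), ?_⟩
  unfold em
  refine Prod.ext (Fin.ext ?_) (Fin.ext ?_)
  · simp only
    omega
  · simp only
    omega

theorem em_inn {n m : ℕ} (x : Fin n × Fin n) : Inn (em m x) := by
  unfold Inn em
  have h1 := x.1.2
  have h2 := x.2.2
  simp only
  omega

section

variable {d n m L : ℕ}

/-- both conditions agree -/
theorem cond (hL : n + 2 * m ≤ L) (v : Site L) (s t : Site L → Fin d) :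
    (∀ w, (∀ x : Fin n × Fin n, sh (up m v) x ≠ w) → s w = t w) ↔
    (∀ w, (∀ z : Fin (n + 2 * m) × Fin (n + 2 * m), sh v z ≠ w) → s w = t w) ∧
    ∀ z : Fin (n + 2 * m) × Fin (n + 2 * m), ¬ Inn z → s (sh v z) = t (sh v z) := by
  constructor
  · intro h
    refine ⟨fun w hw => h w fun x => ?_, fun z hz => h _ fun x hx => ?_⟩
    · rw [sh_em]
      exact hw _
    · rw [sh_em] at hx
      have h1 := sh_inj hL v hx
      exact hz (h1 ▸ em_inn x)
  · rintro ⟨h1, h2⟩ w hw
    by_cases hb : ∃ z : Fin (n + 2 * m) × Fin (n + 2 * m), sh v z = w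
    · obtain ⟨z, hz⟩ := hb
      rw [← hz]
      refine h2 z fun hzi => ?_
      obtain ⟨x, hx⟩ := inn_em z hzi
      exact hw x (by rw [sh_em, hx, hz])
    · exact h1 w fun z hz => hb ⟨z, hz⟩

theorem sh_sh_win (v : Site L) (s : Site L → Fin d) (y : Fin (n + m + 1) × Fin (n + m + 1)) :
    (fun x : Fin m × Fin m => s (sh (sh v y) x)) =
      win (fun z : Fin (n + 2 * m) × Fin (n + 2 * m) => s (sh v z)) y := by
  funext x
  unfold win
  congr 1
  unfold sh
  refine Prod.ext ?_ ?_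
  · simp only
    push_cast
    ring
  · simp only
    push_cast
    ring

/-- a box of side `m` which meets the inner box starts in the box of side `n + m + 1` -/
theorem meet (v w : Site L) (x : Fin m × Fin m) (x' : Fin n × Fin n) (h : sh w x = sh (up m v) x') :
    ∃ y : Fin (n + m + 1) × Fin (n + m + 1), sh v y = w := by
  have a1 := x.1.2
  have a2 := x.2.2
  have b1 := x'.1.2
  have b2 := x'.2.2
  refine ⟨(⟨m + (x'.1 : ℕ) - (x.1 : ℕ), by omega⟩, ⟨m + (x'.2 : ℕ) - (x.2 : ℕ), by omega⟩), ?_⟩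
  unfold sh up at h
  unfold sh
  have h1 := congrArg Prod.fst h
  have h2 := congrArg Prod.snd h
  simp only at h1 h2
  refine Prod.ext ?_ ?_
  · simp only
    rw [Nat.cast_sub (by omega), Nat.cast_add]
    have h3 : w.1 = v.1 + (m : ZMod L) + ((x'.1 : ℕ) : ZMod L) - ((x.1 : ℕ) : ZMod L) := by
      rw [← h1]; ring
    rw [h3]
    ring
  · simp only
    rw [Nat.cast_sub (by omega), Nat.cast_add]
    have h3 : w.2 = v.2 + (m : ZMod L) + ((x'.2 : ℕ) : ZMod L) - ((x.2 : ℕ) : ZMod L) := by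
      rw [← h2]; ring
    rw [h3]
    ring

theorem one_fac {z : ℂ} (h : ‖z‖ = 1) : z * (starRingEnd ℂ) z = 1 := by
  rw [Complex.mul_conj, Complex.normSq_eq_norm_sq, h]
  norm_num

theorem prod_eq [NeZero L] (hL : n + m + 1 ≤ L) (u : (Fin m × Fin m → Fin d) → ℂ) (hu : ∀ p, ‖u p‖ = 1)
    (v : Site L) (s t : Site L → Fin d) (h : ∀ w, (∀ x : Fin n × Fin n, sh (up m v) x ≠ w) → s w = t w) :
    phase u s * (starRingEnd ℂ) (phase u t) = ∏ y : Fin (n + m + 1) × Fin (n + m + 1),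
      (u (win (fun z : Fin (n + 2 * m) × Fin (n + 2 * m) => s (sh v z)) y) *
        (starRingEnd ℂ) (u (win (fun z : Fin (n + 2 * m) × Fin (n + 2 * m) => t (sh v z)) y))) := by
  classical
  unfold phase
  rw [map_prod, ← Finset.prod_mul_distrib]
  have h1 : ∏ y : Fin (n + m + 1) × Fin (n + m + 1),
      (u (win (fun z : Fin (n + 2 * m) × Fin (n + 2 * m) => s (sh v z)) y) *
        (starRingEnd ℂ) (u (win (fun z : Fin (n + 2 * m) × Fin (n + 2 * m) => t (sh v z)) y))) =
      ∏ w ∈ (univ : Finset (Fin (n + m + 1) × Fin (n + m + 1))).image (sh v),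
        (u fun x => s (sh w x)) * (starRingEnd ℂ) (u fun x => t (sh w x)) := by
    rw [Finset.prod_image fun a _ b _ hab => sh_inj hL v hab]
    refine Finset.prod_congr rfl fun y _ => ?_
    rw [← sh_sh_win, ← sh_sh_win]
  rw [h1]
  symm
  refine Finset.prod_subset (Finset.subset_univ _) fun w _ hw => ?_
  have h2 : (fun x : Fin m × Fin m => s (sh w x)) = fun x => t (sh w x) := by
    funext x
    refine h _ fun x' hx' => hw ?_
    obtain ⟨y, hy⟩ := meet v w x x' hx'.symm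
    exact Finset.mem_image.2 ⟨y, Finset.mem_univ _, hy⟩
  rw [h2]
  exact one_fac (hu _)

theorem one_term [NeZero L] (hL : n + 2 * m + 1 ≤ L) (u : (Fin m × Fin m → Fin d) → ℂ) (k : BoxOp d n)
    (hu : ∀ p, ‖u p‖ = 1) (v : Site L) (s t : Site L → Fin d) :
    phase u s * term k (up m v) s t * (starRingEnd ℂ) (phase u t) = term (deco u k) v s t := by
  classical
  unfold term deco
  by_cases h : ∀ w, (∀ x : Fin n × Fin n, sh (up m v) x ≠ w) → s w = t w
  · obtain ⟨c1, c2⟩ := (cond (by omega) v s t).1 h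
    have c2' : ∀ z : Fin (n + 2 * m) × Fin (n + 2 * m),
        ¬ ((m ≤ (z.1 : ℕ) ∧ (z.1 : ℕ) < m + n) ∧ m ≤ (z.2 : ℕ) ∧ (z.2 : ℕ) < m + n) →
        (fun x : Fin (n + 2 * m) × Fin (n + 2 * m) => s (sh v x)) z =
          (fun x : Fin (n + 2 * m) × Fin (n + 2 * m) => t (sh v x)) z := c2
    rw [if_pos h, if_pos c1, if_pos c2', mul_right_comm, prod_eq (by omega) u hu v s t h, mul_comm]
    congr 1
    have e : ∀ r : Site L → Fin d, (fun x : Fin n × Fin n => r (sh (up m v) x)) =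
        inn (fun z : Fin (n + 2 * m) × Fin (n + 2 * m) => r (sh v z)) := by
      intro r
      funext x
      rw [sh_em]
      rfl
    rw [e, e]
  · rw [if_neg h, mul_zero, zero_mul]
    by_cases c1 : ∀ w, (∀ z : Fin (n + 2 * m) × Fin (n + 2 * m), sh v z ≠ w) → s w = t w
    · rw [if_pos c1, if_neg]
      intro c2
      exact h ((cond (by omega) v s t).2 ⟨c1, c2⟩)
    · rw [if_neg c1]

theorem main_aux [NeZero L] (hL : n + 2 * m + 1 ≤ L) (u : (Fin m × Fin m → Fin d) → ℂ) (k : BoxOp d n)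
    (hu : ∀ p, ‖u p‖ = 1) (s t : Site L → Fin d) :
    phase u s * ham k L s t * (starRingEnd ℂ) (phase u t) = ham (deco u k) L s t := by
  unfold ham
  rw [Matrix.sum_apply, Matrix.sum_apply, Finset.mul_sum, Finset.sum_mul]
  have h : ∑ v : Site L, phase u s * term k v s t * (starRingEnd ℂ) (phase u t) =
      ∑ v : Site L, phase u s * term k (up m v) s t * (starRingEnd ℂ) (phase u t) :=
    (Equiv.sum_comp (Equiv.addRight (((m : ZMod L), (m : ZMod L)) : Site L))
      (fun v : Site L => phase u s * term k v s t * (starRingEnd ℂ) (phase u t))).symm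
  rw [h]
  exact Finset.sum_congr rfl fun v _ => one_term hL u k hu v s t

end

theorem main : DecoS := by
  intro d n m u k _ hu
  refine ⟨fun L _ hL s t => main_aux hL u k hu s t, fun δ hδ hk p q => ?_, fun hk => ?_⟩
  · unfold deco
    split_ifs
    · rw [norm_mul, norm_prod]
      have h : ∏ y : Fin (n + m + 1) × Fin (n + m + 1), ‖u (win p y) * (starRingEnd ℂ) (u (win q y))‖ = 1 := by
        refine Finset.prod_eq_one fun y _ => ?_
        rw [norm_mul, RCLike.norm_conj, hu, hu, mul_one]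
      rw [h, mul_one]
      exact hk _ _
    · rw [norm_zero]
      exact hδ
  · ext p q
    rw [Matrix.conjTranspose_apply]
    unfold deco
    by_cases h : ∀ z : Fin (n + 2 * m) × Fin (n + 2 * m),
      ¬ ((m ≤ (z.1 : ℕ) ∧ (z.1 : ℕ) < m + n) ∧ m ≤ (z.2 : ℕ) ∧ (z.2 : ℕ) < m + n) → p z = q z
    · have h' : ∀ z : Fin (n + 2 * m) × Fin (n + 2 * m),
        ¬ ((m ≤ (z.1 : ℕ) ∧ (z.1 : ℕ) < m + n) ∧ m ≤ (z.2 : ℕ) ∧ (z.2 : ℕ) < m + n) → q z = p z :=
        fun z hz => (h z hz).symm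
      rw [if_pos h, if_pos h', star_mul', star_prod]
      congr 1
      · exact hk.apply _ _
      · refine Finset.prod_congr rfl fun y _ => ?_
        rw [star_mul', starRingEnd_apply, starRingEnd_apply, star_star, mul_comm]
    · have h' : ¬ ∀ z : Fin (n + 2 * m) × Fin (n + 2 * m),
        ¬ ((m ≤ (z.1 : ℕ) ∧ (z.1 : ℕ) < m + n) ∧ m ≤ (z.2 : ℕ) ∧ (z.2 : ℕ) < m + n) → q z = p z :=
        fun h'' => h fun z hz => (h'' z hz).symm
      rw [if_neg h, if_neg h', star_zero]

end Pool.Agent.Q193.KG.DC
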